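import Pool.Agent.Helper96.PolyList
import Pool.Agent.Helper20.Flip.Lang
import Pool.Agent.Helper20.Flip.Par

/-!
# Module RED: the reduction is computable in polynomial time
-/

set_option autoImplicit false

namespace Pool.Agent.Helper20.Flip

namespace RedAux

open Pool.Agent.Helper96

/-! ### binary arithmetic -/

theorem val_append (x y : List Bool) : val (x ++ y) = val x + 2 ^ x.length * val y := by
  induction x with
  | nil => simp [val]
  | cons b x ih =>
    rw [List.cons_append, val, ih, val, List.length_cons, pow_succ]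
    ring

theorem val_replicate (k : ℕ) : val (List.replicate k false) = 0 := by
  induction k with
  | zero => rfl
  | succ k ih => rw [List.replicate_succ, val, ih]; rfl

/-- shift -/
def shl (k : ℕ) (x : List Bool) : List Bool := List.replicate k false ++ x

theorem val_shl (k : ℕ) (x : List Bool) : val (shl k x) = 2 ^ k * val x := by
  rw [shl, val_append, val_replicate, List.length_replicate, zero_add]

theorem val_lt (x : List Bool) : val x < 2 ^ x.length := by
  induction x with
  | nil => simp [val]
  | cons b x ih =>
    rw [val, List.length_cons, pow_succ]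
    split_ifs <;> omega

/-- addition of two numbers with the same number of digits, given by the list of pairs of digits, with carry -/
def addC : List (Bool × Bool) → Bool → List Bool
  | [], c => [c]
  | p :: l, c => (Bool.xor (Bool.xor p.1 p.2) c) :: addC l ((p.1 && p.2) || (p.1 && c) || (p.2 && c))

theorem val_addC (l : List (Bool × Bool)) (c : Bool) :
    val (addC l c) = val (l.map Prod.fst) + val (l.map Prod.snd) + (if c then 1 else 0) := by
  induction l generalizing c with
  | nil => simp [addC, val]
  | cons p l ih =>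
    obtain ⟨a, b⟩ := p
    rw [addC, val, ih, List.map_cons, List.map_cons, val, val]
    cases a <;> cases b <;> cases c <;> simp <;> ring

theorem length_addC (l : List (Bool × Bool)) (c : Bool) : (addC l c).length = l.length + 1 := by
  induction l generalizing c with
  | nil => rfl
  | cons p l ih => rw [addC, List.length_cons, ih, List.length_cons]

/-- padding to (at least) the length of the second list -/
def pad (x y : List Bool) : List Bool := x ++ List.replicate (y.length - x.length) false

theorem val_pad (x y : List Bool) : val (pad x y) = val x := by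
  rw [pad, val_append, val_replicate, mul_zero, add_zero]

theorem length_pad (x y : List Bool) : (pad x y).length = max x.length y.length := by
  rw [pad, List.length_append, List.length_replicate]
  omega

/-- binary addition -/
def addB (x y : List Bool) : List Bool := addC ((pad x y).zip (pad y x)) false

theorem val_addB (x y : List Bool) : val (addB x y) = val x + val y := by
  have h : (pad x y).length = (pad y x).length := by rw [length_pad, length_pad, max_comm]
  rw [addB, val_addC, List.map_fst_zip (le_of_eq h), List.map_snd_zip (le_of_eq h.symm), val_pad, val_pad]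
  simp

theorem length_addB (x y : List Bool) : (addB x y).length = max x.length y.length + 1 := by
  have h : (pad x y).length = (pad y x).length := by rw [length_pad, length_pad, max_comm]
  rw [addB, length_addC, List.length_zip, ← h, min_self, length_pad]

/-- sum of a list of binary numbers -/
def sumB (l : List (List Bool)) : List Bool := l.foldl addB []

theorem val_foldl_addB (l : List (List Bool)) (x : List Bool) :
    val (l.foldl addB x) = val x + (l.map val).sum := by
  induction l generalizing x with
  | nil => simp
  | cons a l ih => rw [List.foldl_cons, ih, val_addB, List.map_cons, List.sum_cons]; ring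

theorem val_sumB (l : List (List Bool)) : val (sumB l) = (l.map val).sum := by
  rw [sumB, val_foldl_addB]; simp [val]

theorem length_foldl_addB (C : ℕ) (l : List (List Bool)) (x : List Bool) (hx : x.length ≤ C)
    (hl : ∀ a ∈ l, a.length ≤ C) : (l.foldl addB x).length ≤ C + l.length := by
  induction l generalizing x C with
  | nil => simpa using hx
  | cons a l ih =>
    rw [List.foldl_cons, List.length_cons]
    have h1 : (addB x a).length ≤ C + 1 := by
      rw [length_addB]
      have := hl a List.mem_cons_self
      omega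
    have := ih (C + 1) (addB x a) h1 (fun b hb => (hl b (List.mem_cons_of_mem _ hb)).trans (by omega))
    omega

/-! ### polynomial time -/

section
variable {α : Type} [Enc α]

theorem sz_bits_le (l : List Bool) : sz l ≤ 4 * l.length + 1 := by
  have := sz_list_le l 3 (fun a _ => sz_bool_le a)
  omega

theorem addC_foldl (l : List (Bool × Bool)) (c : Bool) (acc : List Bool) :
    (l.foldl (fun (st : Bool × List Bool) (p : Bool × Bool) =>
      (((p.1 && p.2) || (p.1 && st.1) || (p.2 && st.1)), (Bool.xor (Bool.xor p.1 p.2) st.1) :: st.2)) (c, acc)).2.reverse ++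
      [(l.foldl (fun (st : Bool × List Bool) (p : Bool × Bool) =>
      (((p.1 && p.2) || (p.1 && st.1) || (p.2 && st.1)), (Bool.xor (Bool.xor p.1 p.2) st.1) :: st.2)) (c, acc)).1]
      = acc.reverse ++ addC l c := by
  induction l generalizing c acc with
  | nil => simp [addC]
  | cons p l ih =>
    rw [List.foldl_cons, ih, addC]
    simp

@[fun_prop]
theorem Poly.xor' {p q : α → Bool} (hp : Poly p) (hq : Poly q) : Poly (fun a => Bool.xor (p a) (q a)) := by
  have : (fun a => Bool.xor (p a) (q a)) = fun a => bif p a then !(q a) else q a := by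
    funext a; cases p a <;> cases q a <;> rfl
  rw [this]; fun_prop

theorem poly_addC {f : α → List (Bool × Bool)} (hf : Poly f) : Poly (fun a => addC (f a) false) := by
  obtain ⟨B, hB, hm, hs⟩ := hf.szPB
  have h1 := Poly.foldl' (f := f) (g := fun _ => (false, ([] : List Bool)))
    (h := fun _ (st : Bool × List Bool) (p : Bool × Bool) =>
      (((p.1 && p.2) || (p.1 && st.1) || (p.2 && st.1)), (Bool.xor (Bool.xor p.1 p.2) st.1) :: st.2)) hf
    (Helper96.Poly.const _) (by fun_prop) (fun n => 4 * B n + 10) (by fun_prop) (by
      intro a l' hl'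
      rw [sz_prod]
      have h2 : ∀ (l : List (Bool × Bool)) (st : Bool × List Bool), (l.foldl (fun (st : Bool × List Bool) (p : Bool × Bool) =>
          (((p.1 && p.2) || (p.1 && st.1) || (p.2 && st.1)), (Bool.xor (Bool.xor p.1 p.2) st.1) :: st.2)) st).2.length
            = l.length + st.2.length := by
        intro l
        induction l with
        | nil => intro st; simp
        | cons p l ih => intro st; rw [List.foldl_cons, ih]; simp; omega
      have h3 := sz_bits_le (l'.foldl (fun (st : Bool × List Bool) (p : Bool × Bool) =>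
          (((p.1 && p.2) || (p.1 && st.1) || (p.2 && st.1)), (Bool.xor (Bool.xor p.1 p.2) st.1) :: st.2)) (false, [])).2
      rw [h2] at h3
      have h4 := sz_bool_le (l'.foldl (fun (st : Bool × List Bool) (p : Bool × Bool) =>
          (((p.1 && p.2) || (p.1 && st.1) || (p.2 && st.1)), (Bool.xor (Bool.xor p.1 p.2) st.1) :: st.2)) (false, [])).1
      have h5 := length_lt_sz l'
      have h6 := (sz_prefix_le hl').trans (hs a)
      simp only [List.length_nil] at h3
      omega)
  have h2 : Poly (fun a => ((f a).foldl (fun (st : Bool × List Bool) (p : Bool × Bool) =>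
      (((p.1 && p.2) || (p.1 && st.1) || (p.2 && st.1)), (Bool.xor (Bool.xor p.1 p.2) st.1) :: st.2)) (false, [])).2.reverse ++
      [((f a).foldl (fun (st : Bool × List Bool) (p : Bool × Bool) =>
      (((p.1 && p.2) || (p.1 && st.1) || (p.2 && st.1)), (Bool.xor (Bool.xor p.1 p.2) st.1) :: st.2)) (false, [])).1]) :=
    Poly.append (Poly.reverse (Poly.snd h1)) (Poly.cons (Poly.fst h1) (Helper96.Poly.const _))
  refine h2.recast fun a => ?_
  rw [addC_foldl]
  rfl

@[fun_prop]
theorem poly_addB {f g : α → List Bool} (hf : Poly f) (hg : Poly g) : Poly (fun a => addB (f a) (g a)) := by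
  have h : Poly (fun a => (pad (f a) (g a)).zip (pad (g a) (f a))) := by
    unfold pad
    fun_prop
  exact poly_addC h

@[fun_prop]
theorem poly_shl {k : α → ℕ} {f : α → List Bool} (hk : Poly k) (hf : Poly f) : Poly (fun a => shl (k a) (f a)) := by
  unfold shl
  fun_prop

@[fun_prop]
theorem poly_sumB {f : α → List (List Bool)} (hf : Poly f) : Poly (fun a => sumB (f a)) := by
  obtain ⟨B, hB, hm, hs⟩ := hf.szPB
  refine Poly.foldl' (f := f) (g := fun _ => ([] : List Bool)) (h := fun _ => addB) hf (Helper96.Poly.const _) (by fun_prop)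
    (fun n => 8 * B n + 1) (by fun_prop) ?_
  intro a l' hl'
  have h1 := hs a
  have h2 := sz_prefix_le hl'
  have h3 := length_foldl_addB (B (sz a)) l' [] (by simp) (by
    intro b hb
    have := sz_mem_lt hb
    have := length_lt_sz b
    omega)
  have h4 := length_lt_sz l'
  have h5 := sz_bits_le (l'.foldl addB [])
  omega

end

/-! ### the reduction -/

abbrev Inp := List (List Bool) × List Bool

def nF (x : Inp) : ℕ := x.1.length
def sF (x : Inp) : ℕ := (x.1.flatMap fun a => a).length + x.2.length + x.1.length + 1
def hF (x : Inp) : ℕ := 2 * sF x + 3 * nF x + 60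
def gF (x : Inp) : ℕ := 2 * hF x + 3 * nF x + 60
def SF (x : Inp) : ℕ := 3 * hF x + gF x + 2 * nF x + 20
def aF (x : Inp) (i : ℕ) : List Bool := (x.1 ++ [[true], [true]]).getD i []
def pairF (x : Inp) (i : ℕ) : List (List Bool × List Bool) :=
  [(shl (SF x) [true], shl (if i = nF x + 1 then SF x - gF x - hF x - 4 else SF x - gF x + 3 + 2 * i) [true]),
   (shl (SF x - hF x - 2 * i) (aF x i), shl (SF x - hF x - gF x + 2) (aF x i))]
def vF (x : Inp) : List (List Bool × List Bool) :=
  (shl (SF x) [true], shl (SF x - gF x - hF x) (addB x.2 (false :: x.2))) ::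
  (shl (SF x - 3 * hF x) [true], shl (SF x - 3 * hF x - gF x - 1) [true]) ::
  (shl (SF x) [true], shl (SF x - gF x + 1) [true]) :: (List.range (nF x + 2)).flatMap (pairF x)
def ptF (x : Inp) (k : ℕ) : RatCode × RatCode :=
  ((false, sumB (((vF x).take k).map Prod.fst), [true]), (false, sumB (((vF x).take k).map Prod.snd), [true]))
def vertF (x : Inp) : List (RatCode × RatCode) :=
  (List.range (2 * nF x + 8)).map (ptF x) ++
    [((false, [], [true]), (false, sumB (List.replicate (2 * nF x + 8) (shl (SF x + 2) [true])), [true]))]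
def F (x : Inp) : List (RatCode × RatCode) × List Bool := (vertF x, shl (hF x) [true])

section
variable {α : Type} [Enc α]

@[fun_prop]
theorem poly_nF {f : α → Inp} (hf : Poly f) : Poly (fun a => nF (f a)) := by
  unfold nF; fun_prop

@[fun_prop]
theorem poly_sF {f : α → Inp} (hf : Poly f) : Poly (fun a => sF (f a)) := by
  unfold sF; fun_prop

@[fun_prop]
theorem poly_hF {f : α → Inp} (hf : Poly f) : Poly (fun a => hF (f a)) := by
  unfold hF; fun_prop

@[fun_prop]
theorem poly_gF {f : α → Inp} (hf : Poly f) : Poly (fun a => gF (f a)) := by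
  unfold gF; fun_prop

@[fun_prop]
theorem poly_SF {f : α → Inp} (hf : Poly f) : Poly (fun a => SF (f a)) := by
  unfold SF; fun_prop

@[fun_prop]
theorem poly_aF {f : α → Inp} {i : α → ℕ} (hf : Poly f) (hi : Poly i) : Poly (fun a => aF (f a) (i a)) := by
  unfold aF; fun_prop

@[fun_prop]
theorem poly_pairF {f : α → Inp} {i : α → ℕ} (hf : Poly f) (hi : Poly i) :
    Poly (fun a => pairF (f a) (i a)) := by
  unfold pairF; fun_prop

@[fun_prop]
theorem poly_vF {f : α → Inp} (hf : Poly f) : Poly (fun a => vF (f a)) := by
  unfold vF; fun_prop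

@[fun_prop]
theorem poly_ptF {f : α → Inp} {i : α → ℕ} (hf : Poly f) (hi : Poly i) :
    Poly (fun a => ptF (f a) (i a)) := by
  unfold ptF; fun_prop

theorem poly_F : Poly F := by
  unfold F vertF; fun_prop

end

/-! ### correctness -/

theorem sum_val_lt (l : List (List Bool)) :
    (l.map val).sum < 2 ^ ((l.flatMap fun a => a).length + l.length) := by
  induction l with
  | nil => simp
  | cons a l ih =>
    rw [List.map_cons, List.sum_cons, List.flatMap_cons, List.length_append, List.length_cons]
    have h1 := val_lt a
    set m := (l.flatMap fun a => a).length + l.length with hm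
    have h2 : 2 ^ (a.length + (l.flatMap fun a => a).length + (l.length + 1)) = 2 * (2 ^ a.length * 2 ^ m) := by
      rw [hm, pow_add, pow_add, pow_add, pow_succ]; ring
    rw [h2]
    have h3 : 1 ≤ 2 ^ a.length := Nat.one_le_two_pow
    have h4 : 1 ≤ 2 ^ m := Nat.one_le_two_pow
    nlinarith

theorem sum_getD (l : List (List Bool)) :
    ∑ i ∈ Finset.range l.length, val (l.getD i []) = (l.map val).sum := by
  induction l with
  | nil => simp
  | cons a l ih =>
    rw [List.length_cons, Finset.sum_range_succ', List.map_cons, List.sum_cons, ← ih, add_comm]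
    rfl

theorem sum_Icc_getD (l : List (List Bool)) :
    ∑ j ∈ Finset.Icc 1 l.length, (if 1 ≤ j ∧ j ≤ l.length then val (l.getD (j - 1) []) else 1) =
      (l.map val).sum := by
  rw [← sum_getD]
  refine Finset.sum_nbij' (fun j => j - 1) (fun i => i + 1) ?_ ?_ ?_ ?_ ?_
  · intro j hj
    rw [Finset.mem_Icc] at hj
    rw [Finset.mem_range]; omega
  · intro j hj
    rw [Finset.mem_range] at hj
    rw [Finset.mem_Icc]; omega
  · intro j hj
    rw [Finset.mem_Icc] at hj
    omega
  · intro j hj
    rfl
  · intro j hj
    rw [Finset.mem_Icc] at hj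
    rw [if_pos hj]

/-- the parameters attached to an input -/
def par (x : Inp) (hx : ∀ a ∈ x.1, 0 < val a) : Par where
  n := nF x
  a := fun j => if 1 ≤ j ∧ j ≤ nF x then val (x.1.getD (j - 1) []) else 1
  T := val x.2
  s := sF x
  h := hF x
  g := gF x
  ha := by
    intro j
    split_ifs with h
    · apply hx
      rw [List.getD_eq_getElem _ _ (by unfold nF at h; omega)]
      exact List.getElem_mem _
    · exact one_pos
  ha' := by
    intro j hj
    rw [if_neg (by omega)]
  hs := by
    have h1 : ∑ j ∈ Finset.Icc 1 (nF x), (if 1 ≤ j ∧ j ≤ nF x then val (x.1.getD (j - 1) []) else 1) =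
        (x.1.map val).sum := sum_Icc_getD x.1
    rw [h1]
    refine (sum_val_lt x.1).trans_le (Nat.pow_le_pow_right (by norm_num) ?_)
    unfold sF; omega
  hT := by
    refine (val_lt x.2).trans_le (Nat.pow_le_pow_right (by norm_num) ?_)
    unfold sF; omega
  hh := rfl
  hg := rfl

theorem val_aF (x : Inp) (hx : ∀ a ∈ x.1, 0 < val a) (i : ℕ) (hi : i < nF x + 2) :
    val (aF x i) = (par x hx).a (i + 1) := by
  have e : (par x hx).a (i + 1) = if 1 ≤ i + 1 ∧ i + 1 ≤ nF x then val (x.1.getD (i + 1 - 1) []) else 1 := rfl
  rw [e, aF]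
  by_cases h : i < nF x
  · rw [if_pos (by omega), Nat.add_sub_cancel, List.getD_append _ _ _ _ h]
  · rw [if_neg (by omega), List.getD_append_right _ _ _ _ (by unfold nF at h; omega)]
    have h2 : i - x.1.length = 0 ∨ i - x.1.length = 1 := by unfold nF at hi h; omega
    rcases h2 with h2 | h2 <;> rw [h2] <;> simp [val]

/-- the vector with given coordinates -/
noncomputable def vecOf (p : List Bool × List Bool) : Pt := ((val p.1 : ℝ), (val p.2 : ℝ))

theorem pow_aux (a b : ℕ) (h : b ≤ a) : (2 : ℝ) ^ (a - b) = 2 ^ a * (1 / 2 ^ b) := by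
  rw [pow_sub₀ _ (by norm_num) h, one_div]

theorem map_pairF (x : Inp) (hx : ∀ a ∈ x.1, 0 < val a) (i : ℕ) (hi : i < nF x + 2) :
    (pairF x i).map vecOf = ((par x hx).pair (i + 1)).map (fun v => (2 : ℝ) ^ SF x • v) := by
  have hS : SF x = 3 * hF x + gF x + 2 * nF x + 20 := rfl
  rw [pairF, Par.pair, List.map_cons, List.map_cons, List.map_nil, List.map_cons, List.map_cons, List.map_nil]
  have hη : (par x hx).η = 1 / 2 ^ hF x := rfl
  have hτ : (par x hx).τ = 1 / 2 ^ gF x := rfl
  have hn : (par x hx).n = nF x := rfl
  have hv : (val (aF x i) : ℝ) = (par x hx).a (i + 1) := by rw [val_aF x hx i hi]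
  have hv1 : val [true] = 1 := rfl
  have h4 : (4 : ℝ) ^ (i + 1) = 2 ^ (2 * i) * 4 := by rw [pow_succ, pow_mul]; norm_num
  congr 1
  · rw [vecOf, val_shl, val_shl, Prod.smul_mk, hv1]
    refine Prod.ext ?_ ?_
    · push_cast; simp
    · simp only [smul_eq_mul]
      rw [hτ, hη, hn]
      by_cases h : i = nF x + 1
      · rw [if_pos h, if_pos (by omega)]
        push_cast
        rw [show SF x - gF x - hF x - 4 = SF x - (gF x + hF x + 4) by omega, pow_aux _ _ (by omega), pow_add, pow_add]
        field_simp
        norm_num
      · rw [if_neg h, if_neg (by omega), Par.R, h4]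
        push_cast
        rw [show SF x - gF x + 3 + 2 * i = (SF x - gF x) + (3 + 2 * i) by ring, pow_add, pow_add,
          pow_aux _ _ (by omega)]
        field_simp
        norm_num
  · congr 1
    rw [vecOf, val_shl, val_shl, Prod.smul_mk]
    refine Prod.ext ?_ ?_
    · simp only [smul_eq_mul]
      rw [Par.ε, hη, h4]
      push_cast
      rw [hv, show SF x - hF x - 2 * i = SF x - (hF x + 2 * i) by omega, pow_aux _ _ (by omega), pow_add]
      field_simp
    · simp only [smul_eq_mul]
      rw [Par.ε, hη, hτ, Par.R, h4]
      push_cast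
      rw [hv, show SF x - hF x - gF x + 2 = (SF x - (hF x + gF x)) + 2 by omega, pow_add, pow_aux _ _ (by omega),
        pow_add]
      field_simp
      norm_num
      ring

theorem map_vF (x : Inp) (hx : ∀ a ∈ x.1, 0 < val a) :
    (vF x).map vecOf = (par x hx).vecs.map (fun v => (2 : ℝ) ^ SF x • v) := by
  have hS : SF x = 3 * hF x + gF x + 2 * nF x + 20 := rfl
  have hη : (par x hx).η = 1 / 2 ^ hF x := rfl
  have hτ : (par x hx).τ = 1 / 2 ^ gF x := rfl
  have hT : (par x hx).T = val x.2 := rfl
  have hn : (par x hx).n = nF x := rfl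
  have hv1 : val [true] = 1 := rfl
  rw [vF, Par.vecs, List.map_cons, List.map_cons, List.map_cons, List.map_cons, List.map_cons, List.map_cons,
    List.map_flatMap, List.map_flatMap]
  congr 1
  · rw [vecOf, val_shl, val_shl, val_addB, Prod.smul_mk, hv1]
    refine Prod.ext ?_ ?_
    · push_cast; simp
    · simp only [smul_eq_mul]
      rw [hη, hτ, hT]
      simp only [val, Bool.false_eq_true, if_false]
      push_cast
      rw [show SF x - gF x - hF x = SF x - (gF x + hF x) by omega, pow_aux _ _ (by omega), pow_add]
      field_simp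
      ring
  congr 1
  · rw [vecOf, val_shl, val_shl, Prod.smul_mk, hv1]
    refine Prod.ext ?_ ?_
    · simp only [smul_eq_mul]
      rw [hη]
      push_cast
      rw [pow_aux _ _ (by omega), mul_comm 3 (hF x), pow_mul]
      field_simp
    · simp only [smul_eq_mul]
      rw [hη, hτ]
      push_cast
      rw [show SF x - 3 * hF x - gF x - 1 = SF x - (hF x * 3 + gF x + 1) by omega, pow_aux _ _ (by omega),
        pow_add, pow_add, pow_mul]
      field_simp
  congr 1
  · rw [vecOf, val_shl, val_shl, Prod.smul_mk, hv1]
    refine Prod.ext ?_ ?_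
    · push_cast; simp
    · simp only [smul_eq_mul]
      rw [hτ, Par.R]
      push_cast
      rw [pow_succ, pow_aux _ _ (by omega)]
      field_simp
      try norm_num
  · rw [hn]
    refine List.flatMap_congr fun i hi => ?_
    exact map_pairF x hx i (List.mem_range.1 hi)

theorem sum_map_vecOf (l : List (List Bool × List Bool)) :
    (l.map vecOf).sum = (((((l.map Prod.fst).map val).sum : ℕ) : ℝ), ((((l.map Prod.snd).map val).sum : ℕ) : ℝ)) := by
  induction l with
  | nil => simp; rfl
  | cons a l ih =>
    rw [List.map_cons, List.sum_cons, ih, List.map_cons, List.map_cons, List.map_cons, List.map_cons,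
      List.sum_cons, List.sum_cons, vecOf]
    push_cast
    rfl

theorem sum_smul (c : ℝ) (l : List Pt) : (l.map (fun v => c • v)).sum = c • l.sum := by
  induction l with
  | nil => simp
  | cons a l ih => rw [List.map_cons, List.sum_cons, List.sum_cons, ih, smul_add]

theorem ratVal_nat (l : List Bool) : ratVal (false, l, [true]) = val l := by
  simp [ratVal, val]

theorem ptF_val (x : Inp) (hx : ∀ a ∈ x.1, 0 < val a) (k : ℕ) :
    ((ratVal (ptF x k).1, ratVal (ptF x k).2) : Pt) = (2 : ℝ) ^ SF x • ((par x hx).vecs.take k).sum := by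
  rw [ptF, ratVal_nat, ratVal_nat, val_sumB, val_sumB, ← sum_smul, List.map_take (f := fun v => (2 : ℝ) ^ SF x • v),
    ← map_vF, ← List.map_take, sum_map_vecOf]

theorem apex_val (x : Inp) :
    ratVal (false, sumB (List.replicate (2 * nF x + 8) (shl (SF x + 2) [true])), [true]) =
      2 ^ SF x * (4 * ((2 * (nF x : ℝ) + 7) + 1)) := by
  rw [ratVal_nat, val_sumB, List.map_replicate, List.sum_replicate, val_shl]
  simp only [val, smul_eq_mul]
  push_cast
  rw [pow_add]
  simp
  ring

end RedAux

open Pool.Agent.Helper96 in
theorem exists_red : ∃ F : List (List Bool) × List Bool → List (RatCode × RatCode) × List Bool,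
    Poly F ∧ ∀ x : List (List Bool) × List Bool, (∀ a ∈ x.1, 0 < val a) →
      ∃ (P : Par) (S : ℕ), P.n = x.1.length ∧
        (∀ j, 1 ≤ j → j ≤ P.n → P.a j = val (x.1.getD (j - 1) [])) ∧ P.T = val x.2 ∧
        (F x).1.length = P.N + 2 ∧
        (∀ q ∈ (F x).1, val q.1.2.2 ≠ 0 ∧ val q.2.2.2 ≠ 0) ∧ val (F x).2 = 2 ^ P.h ∧
        ∀ k, k < P.N + 2 →
          ((F x).1.map fun q => ((ratVal q.1, ratVal q.2) : Pt)).getD k (0, 0) =
            (2 : ℝ) ^ S • P.vtx k := by
  refine ⟨RedAux.F, RedAux.poly_F, fun x hx => ⟨RedAux.par x hx, RedAux.SF x, rfl, ?_, rfl, ?_, ?_, ?_, ?_⟩⟩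
  · intro j h1 h2
    exact if_pos ⟨h1, h2⟩
  · simp [RedAux.F, RedAux.vertF, Par.N, RedAux.par]
  · intro q hq
    simp only [RedAux.F, RedAux.vertF, List.mem_append, List.mem_map, List.mem_singleton] at hq
    rcases hq with ⟨k, _, rfl⟩ | rfl
    · simp [RedAux.ptF, val]
    · simp [val]
  · change val (RedAux.shl (RedAux.hF x) [true]) = 2 ^ RedAux.hF x
    rw [RedAux.val_shl]
    simp [val]
  · intro k hk
    have hN : (RedAux.par x hx).N = 2 * RedAux.nF x + 7 := rfl
    have e : (RedAux.F x).1 = RedAux.vertF x := rfl
    rw [hN] at hk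
    rw [e, RedAux.vertF, List.map_append, Par.vtx, hN]
    by_cases h : k < 2 * RedAux.nF x + 8
    · rw [if_pos (by omega), List.getD_append _ _ _ _ (by simpa using h), ← RedAux.ptF_val,
        List.getD_eq_getElem _ _ (by simpa using h)]
      simp
    · have hk' : k = 2 * RedAux.nF x + 8 := by omega
      rw [if_neg (by omega), List.getD_append_right _ _ _ _ (by simpa using h)]
      have h0 : k - (List.map (fun q : RatCode × RatCode => ((ratVal q.1, ratVal q.2) : Pt))
          (List.map (RedAux.ptF x) (List.range (2 * RedAux.nF x + 8)))).length = 0 := by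
        simp; omega
      rw [h0, List.map_cons, List.getD_cons_zero, RedAux.apex_val, Prod.smul_mk]
      refine Prod.ext ?_ ?_
      · simp [ratVal, val]
      · simp only [smul_eq_mul]
        push_cast
        ring

end Pool.Agent.Helper20.Flip
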